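import Mathlib

/-!
# A computable function whose orbits starting from given codes meet iff the codes are equivalent
-/

set_option autoImplicit false

namespace Pool.Agent.R662.CE

open Nat.Partrec

/-- bounded approximations of a recursively enumerable relation -/
theorem exists_q (R : ℕ → ℕ → Prop) (hre : REPred (fun p : ℕ × ℕ => R p.1 p.2)) :
    ∃ q : ℕ → ℕ → ℕ → Bool, Computable (fun p : ℕ × ℕ × ℕ => q p.1 p.2.1 p.2.2) ∧
      (∀ x y, R x y ↔ ∃ t, q x y t = true) ∧
      ∀ x y t t', t ≤ t' → q x y t = true → q x y t' = true := by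
  obtain ⟨c, hc⟩ := Code.exists_code.1 (show Nat.Partrec _ from hre)
  have hdom : ∀ x y : ℕ, R x y ↔ (c.eval (Nat.pair x y)).Dom := by
    intro x y
    rw [hc]
    have h1 : (Encodable.decode (Nat.pair x y) : Option (ℕ × ℕ)) = some (x, y) := by
      have := Encodable.encodek (α := ℕ × ℕ) (x, y)
      exact this
    simp [Part.assert]
  refine ⟨fun x y t => (Code.evaln t c (Nat.pair x y)).isSome, ?_, ?_, ?_⟩
  · have h1 : Primrec (fun p : ℕ × ℕ × ℕ => Code.evaln p.2.2 c (Nat.pair p.1 p.2.1)) := by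
      have h2 : Primrec (fun p : ℕ × ℕ × ℕ => (((p.2.2, c), Nat.pair p.1 p.2.1) :
          (ℕ × Code) × ℕ)) :=
        ((Primrec.snd.comp Primrec.snd).pair (Primrec.const c)).pair
          (Primrec₂.natPair.comp Primrec.fst (Primrec.fst.comp Primrec.snd))
      exact Code.primrec_evaln.comp h2
    exact (Primrec.option_isSome.comp h1).to_comp
  · intro x y
    rw [hdom, Part.dom_iff_mem]
    constructor
    · rintro ⟨z, hz⟩
      obtain ⟨k, hk⟩ := Code.evaln_complete.1 hz
      exact ⟨k, Option.isSome_iff_exists.2 ⟨z, hk⟩⟩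
    · rintro ⟨t, ht⟩
      obtain ⟨z, hz⟩ := Option.isSome_iff_exists.1 ht
      exact ⟨z, Code.evaln_sound hz⟩
  · intro x y t t' h ht
    obtain ⟨z, hz⟩ := Option.isSome_iff_exists.1 ht
    exact Option.isSome_iff_exists.2 ⟨z, Code.evaln_mono h hz⟩

section step

variable (q : ℕ → ℕ → ℕ → Bool)

/-- the new candidate -/
def nm (m s : ℕ) : ℕ :=
  bif decide (s.unpair.1 < m) && q s.unpair.1 m s.unpair.2 then s.unpair.1 else m

/-- the step function -/
def gf (n : ℕ) : ℕ := Nat.pair (nm q n.unpair.1 n.unpair.2) (n.unpair.2 + 1)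

theorem gf_pair (m s : ℕ) : gf q (Nat.pair m s) = Nat.pair (nm q m s) (s + 1) := by
  unfold gf
  rw [Nat.unpair_pair]

theorem gf_computable (hq : Computable (fun p : ℕ × ℕ × ℕ => q p.1 p.2.1 p.2.2)) :
    Computable (gf q) := by
  have h1 : Computable (fun n : ℕ => n.unpair.1) := (Primrec.fst.comp Primrec.unpair).to_comp
  have h2 : Computable (fun n : ℕ => n.unpair.2) := (Primrec.snd.comp Primrec.unpair).to_comp
  have h3 : Computable (fun n : ℕ => n.unpair.2.unpair.1) := h1.comp h2
  have h4 : Computable (fun n : ℕ => n.unpair.2.unpair.2) := h2.comp h2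
  have h5' := hq.comp (h3.pair (h1.pair h4))
  have h5 : Computable (fun n : ℕ => q n.unpair.2.unpair.1 n.unpair.1 n.unpair.2.unpair.2) := h5'
  have hlt : Computable₂ (fun a b : ℕ => decide (a < b)) :=
    (PrimrecRel.decide Primrec.nat_lt).to_comp
  have h6 : Computable (fun n : ℕ => decide (n.unpair.2.unpair.1 < n.unpair.1)) :=
    hlt.comp h3 h1
  have hand : Computable₂ (fun a b : Bool => a && b) := Primrec.and.to_comp
  have h7 : Computable (fun n : ℕ => decide (n.unpair.2.unpair.1 < n.unpair.1) &&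
      q n.unpair.2.unpair.1 n.unpair.1 n.unpair.2.unpair.2) := hand.comp h6 h5
  have h8 := Computable.cond h7 h3 h1
  have h9 : Computable (fun n : ℕ => n.unpair.2 + 1) := Computable.succ.comp h2
  have hp : Computable₂ Nat.pair := Primrec₂.natPair.to_comp
  have h10 := hp.comp h8 h9
  refine h10.of_eq ?_
  intro n
  rfl

/-- the candidates -/
def ms (x : ℕ) : ℕ → ℕ
  | 0 => x
  | k + 1 => nm q (ms x k) k

theorem gf_iter (x k : ℕ) : (gf q)^[k] (Nat.pair x 0) = Nat.pair (ms q x k) k := by
  induction k with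
  | zero => rfl
  | succ k ih => rw [Function.iterate_succ_apply', ih, gf_pair]; rfl

theorem nm_le (m s : ℕ) : nm q m s ≤ m := by
  unfold nm
  rcases h : decide (s.unpair.1 < m) && q s.unpair.1 m s.unpair.2 with _ | _
  · exact le_rfl
  · rw [Bool.and_eq_true, decide_eq_true_eq] at h
    exact h.1.le

theorem ms_anti (x : ℕ) {k k' : ℕ} (h : k ≤ k') : ms q x k' ≤ ms q x k := by
  induction h with
  | refl => exact le_rfl
  | step _ ih => exact (nm_le q _ _).trans ih

variable {q} {R : ℕ → ℕ → Prop} (hR : Equivalence R) (hq : ∀ x y, R x y ↔ ∃ t, q x y t = true)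
  (hmono : ∀ x y t t', t ≤ t' → q x y t = true → q x y t' = true)

include hR hq in
theorem ms_rel (x k : ℕ) : R (ms q x k) x := by
  induction k with
  | zero => exact hR.refl x
  | succ k ih =>
    change R (nm q (ms q x k) k) x
    unfold nm
    rcases h : decide (k.unpair.1 < ms q x k) && q k.unpair.1 (ms q x k) k.unpair.2 with _ | _
    · exact ih
    · rw [Bool.and_eq_true] at h
      exact hR.trans ((hq _ _).2 ⟨_, h.2⟩) ih

include hR hq hmono in
theorem ms_reach (x μ : ℕ) (hμ : R μ x) (hmin : ∀ z, R z x → μ ≤ z) : ∀ (m k : ℕ),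
    ms q x k ≤ m → ∃ k', ms q x k' = μ := by
  intro m
  induction m with
  | zero =>
    intro k hk
    exact ⟨k, le_antisymm (hk.trans (Nat.zero_le _)) (hmin _ (ms_rel hR hq x k))⟩
  | succ m ih =>
    intro k hk
    have h1 : μ ≤ ms q x k := hmin _ (ms_rel hR hq x k)
    rcases h1.eq_or_lt with h2 | h2
    · exact ⟨k, h2.symm⟩
    · obtain ⟨t, ht⟩ := (hq μ (ms q x k)).1 (hR.trans hμ (hR.symm (ms_rel hR hq x k)))
      set t' := max t k with ht'
      have h3 := hmono _ _ t t' (le_max_left _ _) ht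
      set s := Nat.pair μ t' with hs
      have hks : k ≤ s := (le_max_right t k).trans (Nat.right_le_pair μ t')
      have h4 := ms_anti q x hks
      rcases h4.eq_or_lt with h5 | h5
      · refine ⟨s + 1, ?_⟩
        change nm q (ms q x s) s = μ
        unfold nm
        rw [h5, hs, Nat.unpair_pair]
        simp only
        rw [h3, decide_eq_true h2]
        rfl
      · exact ih s (by omega)

include hR hq hmono in
/-- the orbits meet exactly for equivalent numbers -/
theorem meet_iff (x y : ℕ) : R x y ↔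
    ∃ k l : ℕ, (gf q)^[k] (Nat.pair x 0) = (gf q)^[l] (Nat.pair y 0) := by
  constructor
  · intro h
    obtain ⟨μ, h1, h2⟩ : ∃ μ, R μ x ∧ ∀ z, R z x → μ ≤ z := by
      classical
      have hex : ∃ z, R z x := ⟨x, hR.refl x⟩
      exact ⟨Nat.find hex, Nat.find_spec hex, fun z hz => Nat.find_min' hex hz⟩
    have h3 : R μ y := hR.trans h1 h
    have h4 : ∀ z, R z y → μ ≤ z := fun z hz => h2 z (hR.trans hz (hR.symm h))
    obtain ⟨k, hk⟩ := ms_reach hR hq hmono x μ h1 h2 _ 0 le_rfl
    obtain ⟨l, hl⟩ := ms_reach hR hq hmono y μ h3 h4 _ 0 le_rfl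
    refine ⟨max k l, max k l, ?_⟩
    rw [gf_iter, gf_iter]
    have e1 : ms q x (max k l) = μ := le_antisymm
      ((ms_anti q x (le_max_left k l)).trans hk.le) (h2 _ (ms_rel hR hq x _))
    have e2 : ms q y (max k l) = μ := le_antisymm
      ((ms_anti q y (le_max_right k l)).trans hl.le) (h4 _ (ms_rel hR hq y _))
    rw [e1, e2]
  · rintro ⟨k, l, h⟩
    rw [gf_iter, gf_iter, Nat.pair_eq_pair] at h
    have h1 := ms_rel hR hq x k
    have h2 := ms_rel hR hq y l
    rw [h.1] at h1
    exact hR.trans (hR.symm h1) h2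

end step

/-- Every recursively enumerable equivalence relation comes from the orbits of a computable
function. -/
theorem exists_g (R : ℕ → ℕ → Prop) (hR : Equivalence R)
    (hre : REPred (fun p : ℕ × ℕ => R p.1 p.2)) :
    ∃ g : ℕ → ℕ, Computable g ∧ ∀ x y, R x y ↔
      ∃ k l : ℕ, g^[k] (Nat.pair x 0) = g^[l] (Nat.pair y 0) := by
  obtain ⟨q, h1, h2, h3⟩ := exists_q R hre
  exact ⟨gf q, gf_computable q h1, meet_iff hR h2 h3⟩

end Pool.Agent.R662.CE
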