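import Pool.Agent.Helper270.WPSource

/-!
# A tape machine computing a function with the same format of inputs and outputs
-/

set_option autoImplicit false

namespace Pool.Agent.R662.CE

open Turing Relation StateTransition
open Turing.PartrecToTM2 (trNat trList)
open Pool.Agent.Helper270.WPSource

/-- the alphabet -/
abbrev Gm : Type := TM2to1.Γ' PartrecToTM2.K' (fun _ => PartrecToTM2.Γ')

/-- the input word -/
noncomputable def inp (n : ℕ) : List Gm := sym true .cons :: (trNat n).reverse.map (sym false)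

theorem trInit_eq (n : ℕ) :
    TM2to1.trInit (Γ := fun _ => PartrecToTM2.Γ') PartrecToTM2.K'.main (trList [n]) = inp n := by
  have : (trList [n]).reverse = PartrecToTM2.Γ'.cons :: (trNat n).reverse := by simp
  unfold TM2to1.trInit inp
  rw [this]
  rfl

/-- decoding -/
def dec : List PartrecToTM2.Γ' → ℕ
  | [] => 0
  | .bit1 :: l => 2 * dec l + 1
  | _ :: l => 2 * dec l

theorem dec_trNat (n : ℕ) : dec (trNat n) = n := by
  induction n using Nat.strong_induction_on with
  | _ n ih =>
    rcases n with _ | n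
    · rfl
    · rw [trNat_rec]
      have h := ih ((n + 1) / 2) (by omega)
      split_ifs with h1
      · simp only [dec, h]; omega
      · simp only [dec, h]; omega

theorem trNat_injective : Function.Injective trNat :=
  Function.LeftInverse.injective dec_trNat

theorem sym_injective (b : Bool) : Function.Injective (sym b) := by
  intro a a' h
  have h1 := congrFun (Prod.mk.inj h).2 PartrecToTM2.K'.main
  simp only [Function.update_self, Option.some.injEq] at h1
  exact h1

theorem sym_ne (b : Bool) (a : PartrecToTM2.Γ') : sym b a ≠ default := by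
  intro h
  have h1 := congrFun (Prod.mk.inj h).2 PartrecToTM2.K'.main
  simp only [Function.update_self] at h1
  exact absurd h1 (by simp)

theorem mk_injective {Γ : Type} [Inhabited Γ] {l l' : List Γ} (hl : ∀ a ∈ l, a ≠ default)
    (hl' : ∀ a ∈ l', a ≠ default) (h : ListBlank.mk l = ListBlank.mk l') : l = l' := by
  have h1 : ∀ i, l.getI i = l'.getI i := by
    intro i
    have := congrArg (fun L => L.nth i) h
    simpa [ListBlank.nth_mk] using this
  have h2 : ∀ (l l' : List Γ), (∀ a ∈ l, a ≠ default) → (∀ i, l.getI i = l'.getI i) →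
      l.length ≤ l'.length := by
    intro l l' hl h
    by_contra hlt
    push Not at hlt
    have h3 := h l'.length
    rw [List.getI_eq_getElem _ hlt, List.getI_eq_default _ le_rfl] at h3
    exact hl _ (List.getElem_mem _) h3
  have hlen : l.length = l'.length := le_antisymm (h2 l l' hl h1) (h2 l' l hl' (fun i => (h1 i).symm))
  refine List.ext_getElem hlen ?_
  intro i hi hi'
  have := h1 i
  rwa [List.getI_eq_getElem _ hi, List.getI_eq_getElem _ hi'] at this

theorem mk1_right {Γ : Type} [Inhabited Γ] (l : List Γ) :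
    (Tape.mk₁ l).right₀ = ListBlank.mk l := by
  unfold Tape.mk₁ Tape.mk₂
  rw [Tape.mk'_right₀]

theorem tape_injective : Function.Injective (fun n => (Tape.mk₁ (inp n) : Tape Gm)) := by
  intro n n' h
  have h1 := congrArg (fun T : Tape Gm => T.right₀) h
  simp only [mk1_right] at h1
  have hne : ∀ n, ∀ a ∈ inp n, a ≠ default := by
    intro n a ha
    unfold inp at ha
    rcases List.mem_cons.1 ha with rfl | ha
    · exact sym_ne _ _
    · obtain ⟨b, _, rfl⟩ := List.mem_map.1 ha
      exact sym_ne _ _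
  have h2 := mk_injective (hne n) (hne n') h1
  unfold inp at h2
  have h3 := (List.cons.inj h2).2
  have h4 := List.map_injective_iff.2 (sym_injective false) h3
  exact trNat_injective (List.reverse_injective h4)

theorem exists_code_g (g : ℕ → ℕ) (hg : Computable g) :
    ∃ c : ToPartrec.Code, ∀ n : ℕ, c.eval [n] = Part.some [g n] := by
  obtain ⟨c, hc⟩ := ToPartrec.Code.exists_code (Nat.Partrec'.part_iff₁.2 hg.partrec)
  refine ⟨c, fun n => ?_⟩
  have := hc ⟨[n], rfl⟩
  simp only at this
  rw [this]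
  simp [List.Vector.head]

theorem TrCfg_inv {K : Type} {Γ : K → Type} {Λ σ : Type} {c1 : TM2.Cfg Γ Λ σ}
    {c2 : TM1.Cfg (TM2to1.Γ' K Γ) (TM2to1.Λ' K Γ Λ σ) σ} (h : TM2to1.TrCfg c1 c2) :
    ∃ L : ListBlank (∀ k, Option (Γ k)), (∀ k, ListBlank.map (Turing.proj k) L =
      ListBlank.mk (List.map some (c1.stk k)).reverse) ∧
      c2 = ⟨Option.map TM2to1.Λ'.normal c1.l, c1.var, Tape.mk' ∅ (TM2to1.addBottom L)⟩ := by
  cases h with
  | mk L hL => exact ⟨L, hL, rfl⟩

theorem L_unique {K : Type} {Γ : K → Type} {L L' : ListBlank (∀ k, Option (Γ k))}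
    (h : ∀ k, ListBlank.map (Turing.proj k) L = ListBlank.map (Turing.proj k) L') : L = L' := by
  refine ListBlank.ext fun i => ?_
  funext k
  have h1 := congrArg (fun M => M.nth i) (h k)
  simp only [Turing.proj_map_nth] at h1
  exact h1

theorem exists_tm0 (g : ℕ → ℕ) (hg : Computable g) :
    ∃ (Λ : Type) (_ : Inhabited Λ) (M : TM0.Machine Gm Λ) (S : Set Λ), S.Finite ∧
      TM0.Supports M S ∧ ∀ n, ∃ q, (⟨q, Tape.mk₁ (inp (g n))⟩ : TM0.Cfg Gm Λ) ∈
        StateTransition.eval (TM0.step M) (TM0.init (inp n)) := by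
  classical
  obtain ⟨c, hc⟩ := exists_code_g g hg
  let inst : Inhabited PartrecToTM2.Λ' :=
    ⟨PartrecToTM2.trNormal c PartrecToTM2.Cont'.halt⟩
  let M2 := PartrecToTM2.tr
  let M1 := TM2to1.tr M2
  let M0 := TM1to0.tr M1
  have s2 : @TM2.Supports _ _ _ _ inst M2 (PartrecToTM2.codeSupp c PartrecToTM2.Cont'.halt) :=
    PartrecToTM2.tr_supports c PartrecToTM2.Cont'.halt
  have s1 := TM2to1.tr_supports M2 s2
  have s0 := TM1to0.tr_supports M1 s1
  refine ⟨_, inferInstance, M0, _, Finset.finite_toSet _, s0, fun n => ?_⟩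
  -- the evaluation of the stack machine
  have h2 : PartrecToTM2.halt [g n] ∈ StateTransition.eval (TM2.step PartrecToTM2.tr)
      (PartrecToTM2.init c [n]) := by
    rw [PartrecToTM2.tr_eval c [n], hc]
    simp only [Part.map_eq_map, Part.map_some]
    exact Part.mem_some _
  have e1 : ∀ n, (TM2.init PartrecToTM2.K'.main (trList [n]) :
      TM2.Cfg (fun _ : PartrecToTM2.K' => PartrecToTM2.Γ') PartrecToTM2.Λ'
        (Option PartrecToTM2.Γ')) = PartrecToTM2.init c [n] := by
    intro n
    unfold TM2.init PartrecToTM2.init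
    congr 1
    funext k
    cases k <;> rfl
  have t1 : ∀ n, TM2to1.TrCfg (PartrecToTM2.init c [n]) (TM1.init (TM2to1.trInit
      (Γ := fun _ => PartrecToTM2.Γ') PartrecToTM2.K'.main (trList [n]))) := by
    intro n
    rw [← e1]
    exact TM2to1.trCfg_init (K := PartrecToTM2.K') (Γ := fun _ => PartrecToTM2.Γ')
      (Λ := PartrecToTM2.Λ') (σ := Option PartrecToTM2.Γ') PartrecToTM2.K'.main (trList [n])
  obtain ⟨b2, hb2, hb2'⟩ := StateTransition.tr_eval (TM2to1.tr_respects M2) (t1 n) h2
  obtain ⟨L, hL, rfl⟩ := TrCfg_inv hb2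
  obtain ⟨L', hL', hX⟩ := TrCfg_inv (t1 (g n))
  have hLL : L = L' := L_unique fun k => by rw [hL, hL']; rfl
  subst hLL
  have htape : (Tape.mk' ∅ (TM2to1.addBottom L) : Tape Gm) = Tape.mk₁ (inp (g n)) := by
    have := congrArg (fun c => c.Tape) hX
    simp only [TM1.init] at this
    rw [← this, trInit_eq]
  obtain ⟨b3, hb3, hb3'⟩ := StateTransition.tr_eval (TM1to0.tr_respects M1)
    (a₁ := TM1.init (TM2to1.trInit (Γ := fun _ => PartrecToTM2.Γ') PartrecToTM2.K'.main
      (trList [n]))) rfl hb2'
  subst hb3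
  rw [trInit_eq] at hb3'
  rw [← htape]
  exact ⟨_, hb3'⟩

end Pool.Agent.R662.CE
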