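import Pool.Agent.R554.CE.Defs
import Pool.Agent.Helper270.WPB
import Pool.Agent.R662.CE.TM
import Pool.Agent.R662.CE.Ceer

/-!
# Every ceer is the connectedness relation of a modular machine
-/

set_option autoImplicit false

namespace Pool.Agent.R662.CE

open Turing Relation StateTransition
open Pool.Agent.Helper270.WPSource Pool.Agent.Helper270.WP Pool.Agent.R554.CE

/-- connectedness for the graph of a function -/
theorem eqvGen_iff {X : Type} (r : X → X → Prop) (F : X → X) (hr : ∀ x y, r x y ↔ y = F x)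
    (x y : X) : EqvGen r x y ↔ ∃ k l : ℕ, F^[k] x = F^[l] y := by
  constructor
  · intro h
    induction h with
    | rel x y h => exact ⟨1, 0, by rw [(hr x y).1 h]; rfl⟩
    | refl x => exact ⟨0, 0, rfl⟩
    | symm x y _ ih => obtain ⟨k, l, h⟩ := ih; exact ⟨l, k, h.symm⟩
    | trans x y z _ _ ih1 ih2 =>
      obtain ⟨k, l, h⟩ := ih1
      obtain ⟨k', l', h'⟩ := ih2
      refine ⟨k' + k, l + l', ?_⟩
      rw [Function.iterate_add_apply, h, ← Function.iterate_add_apply, add_comm k' l,
        Function.iterate_add_apply, h', ← Function.iterate_add_apply]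
  · rintro ⟨k, l, h⟩
    have h1 : ∀ (k : ℕ) (x : X), EqvGen r x (F^[k] x) := by
      intro k
      induction k with
      | zero => intro x; exact EqvGen.refl x
      | succ k ih =>
        intro x
        rw [Function.iterate_succ_apply']
        exact (ih x).trans _ _ _ (EqvGen.rel _ _ ((hr _ _).2 rfl))
    have h2 := h1 k x
    rw [h] at h2
    exact h2.trans _ _ _ ((h1 l y).symm _ _)

section restart

variable {Γ Λ : Type} [Inhabited Γ] [Inhabited Λ] (M : TM0.Machine Γ Λ) {S : Set Λ}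
  (hS : TM0.Supports M S)

/-- the restarting machine -/
def tot (q : S) (s : Γ) : S × TM0.Stmt Γ :=
  match h : M q.1 s with
  | some p => (⟨p.1, hS.2 (q' := p.1) (s := p.2) (by rw [h]; rfl) q.2⟩, p.2)
  | none => (⟨default, hS.1⟩, TM0.Stmt.write s)

/-- the step of a total machine -/
def stepF {Λ' : Type} (μ : Λ' → Γ → Λ' × TM0.Stmt Γ) (c : Λ' × Tape Γ) : Λ' × Tape Γ :=
  ((μ c.1 c.2.1).1, act (μ c.1 c.2.1).2 c.2)

/-- the configuration of the original machine -/
def io (c : S × Tape Γ) : TM0.Cfg Γ Λ := ⟨c.1.1, c.2⟩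

theorem io_injective : Function.Injective (io (Γ := Γ) (Λ := Λ) (S := S)) := by
  rintro ⟨q, T⟩ ⟨q', T'⟩ h
  unfold io at h
  injection h with h1 h2
  exact Prod.ext (Subtype.ext h1) h2

theorem step_eq' (q : Λ) (T : Tape Γ) :
    TM0.step M ⟨q, T⟩ = (M q T.1).map fun p => ⟨p.1, act p.2 T⟩ := rfl

theorem step_some (c : S × Tape Γ) (w : TM0.Cfg Γ Λ) (h : TM0.step M (io c) = some w) :
    io (stepF (tot M hS) c) = w := by
  rw [show io c = ⟨c.1.1, c.2⟩ from rfl, step_eq'] at h
  obtain ⟨p, hp, rfl⟩ := Option.map_eq_some_iff.1 h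
  unfold stepF io
  have : tot M hS c.1 c.2.1 = (⟨p.1, hS.2 (q' := p.1) (s := p.2) (by rw [hp]; rfl) c.1.2⟩, p.2) := by
    unfold tot
    split
    · rename_i p' hp'
      rw [hp] at hp'
      obtain rfl := Option.some.inj hp'
      rfl
    · rename_i hp'
      rw [hp] at hp'
      exact absurd hp' (by simp)
  rw [this]

theorem step_none (c : S × Tape Γ) (h : TM0.step M (io c) = none) :
    stepF (tot M hS) c = (⟨default, hS.1⟩, c.2) := by
  rw [show io c = ⟨c.1.1, c.2⟩ from rfl, step_eq'] at h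
  have hp := Option.map_eq_none_iff.1 h
  have : tot M hS c.1 c.2.1 = (⟨default, hS.1⟩, TM0.Stmt.write c.2.1) := by
    unfold tot
    split
    · rename_i p' hp'
      rw [hp] at hp'
      exact absurd hp' (by simp)
    · rfl
  unfold stepF
  rw [this]
  change (_, Tape.write c.2.1 c.2) = _
  rw [Tape.write_self]

variable (T : ℕ → Tape Γ) (hT : Function.Injective T) (g : ℕ → ℕ)
  (h : ∀ n, ∃ q, (⟨q, T (g n)⟩ : TM0.Cfg Γ Λ) ∈ StateTransition.eval (TM0.step M) ⟨default, T n⟩)

/-- the initial configuration -/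
def c0 (n : ℕ) : S × Tape Γ := (⟨default, hS.1⟩, T n)

include h in
theorem onpath (n : ℕ) : ∀ i : ℕ, ∃ a : ℕ, Reaches (TM0.step M)
    (⟨default, T (g^[a] n)⟩ : TM0.Cfg Γ Λ) (io ((stepF (tot M hS))^[i] (c0 M hS T n))) := by
  intro i
  induction i with
  | zero => exact ⟨0, ReflTransGen.refl⟩
  | succ i ih =>
    obtain ⟨a, ha⟩ := ih
    rw [Function.iterate_succ_apply']
    generalize (stepF (tot M hS))^[i] (c0 M hS T n) = z at ha ⊢
    cases hz : TM0.step M (io z) with
    | some w =>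
      refine ⟨a, ?_⟩
      rw [step_some M hS z w hz]
      exact ha.tail hz
    | none =>
      refine ⟨a + 1, ?_⟩
      have h1 : io z ∈ StateTransition.eval (TM0.step M) (⟨default, T (g^[a] n)⟩ : TM0.Cfg Γ Λ) :=
        StateTransition.mem_eval.2 ⟨ha, hz⟩
      obtain ⟨q, hq⟩ := h (g^[a] n)
      have h2 := Part.mem_unique h1 hq
      have h3 : z.2 = T (g (g^[a] n)) := congrArg (fun c => c.Tape) h2
      rw [step_none M hS z hz, h3, Function.iterate_succ_apply']
      exact ReflTransGen.refl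

include h hT in
theorem meet_of (n n' k l : ℕ) (hkl : (stepF (tot M hS))^[k] (c0 M hS T n) =
    (stepF (tot M hS))^[l] (c0 M hS T n')) : ∃ a b : ℕ, g^[a] n = g^[b] n' := by
  obtain ⟨a, ha⟩ := onpath M hS T g h n k
  obtain ⟨b, hb⟩ := onpath M hS T g h n' l
  rw [hkl] at ha
  have h1 := StateTransition.reaches_eval ha
  have h2 := StateTransition.reaches_eval hb
  rw [← h2] at h1
  obtain ⟨q, hq⟩ := h (g^[a] n)
  obtain ⟨q', hq'⟩ := h (g^[b] n')
  rw [h1] at hq
  have h3 := Part.mem_unique hq hq'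
  have h4 : T (g (g^[a] n)) = T (g (g^[b] n')) := congrArg (fun c => c.Tape) h3
  refine ⟨a + 1, b + 1, ?_⟩
  rw [Function.iterate_succ_apply', Function.iterate_succ_apply']
  exact hT h4

theorem reach_F {c : S × Tape Γ} {b : TM0.Cfg Γ Λ} (hb : Reaches (TM0.step M) (io c) b) :
    ∃ i : ℕ, io ((stepF (tot M hS))^[i] c) = b := by
  induction hb with
  | refl => exact ⟨0, rfl⟩
  | tail _ hbc ih =>
    obtain ⟨i, hi⟩ := ih
    refine ⟨i + 1, ?_⟩
    rw [Function.iterate_succ_apply']
    exact step_some M hS _ _ (by rw [hi]; exact hbc)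

include h in
theorem forward (n : ℕ) : ∃ i : ℕ, (stepF (tot M hS))^[i] (c0 M hS T n) = c0 M hS T (g n) := by
  obtain ⟨q, hq⟩ := h n
  obtain ⟨h1, h2⟩ := StateTransition.mem_eval.1 hq
  obtain ⟨i, hi⟩ := reach_F M hS (c := c0 M hS T n) h1
  refine ⟨i + 1, ?_⟩
  rw [Function.iterate_succ_apply', step_none M hS _ (by rw [hi]; exact h2)]
  have h3 : ((stepF (tot M hS))^[i] (c0 M hS T n)).2 = T (g n) :=
    congrArg (fun c => c.Tape) hi
  rw [h3]
  rfl

include h in
theorem forward_iter (n : ℕ) : ∀ a : ℕ, ∃ i : ℕ,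
    (stepF (tot M hS))^[i] (c0 M hS T n) = c0 M hS T (g^[a] n) := by
  intro a
  induction a with
  | zero => exact ⟨0, rfl⟩
  | succ a ih =>
    obtain ⟨i, hi⟩ := ih
    obtain ⟨j, hj⟩ := forward M hS T g h (g^[a] n)
    refine ⟨j + i, ?_⟩
    rw [Function.iterate_add_apply, hi, hj, Function.iterate_succ_apply']

include h hT in
theorem restart_iff (n n' : ℕ) : (∃ k l : ℕ, (stepF (tot M hS))^[k] (c0 M hS T n) =
    (stepF (tot M hS))^[l] (c0 M hS T n')) ↔ ∃ a b : ℕ, g^[a] n = g^[b] n' := by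
  constructor
  · rintro ⟨k, l, hkl⟩
    exact meet_of M hS T hT g h n n' k l hkl
  · rintro ⟨a, b, hab⟩
    obtain ⟨i, hi⟩ := forward_iter M hS T g h n a
    obtain ⟨j, hj⟩ := forward_iter M hS T g h n' b
    exact ⟨i, j, by rw [hi, hj, hab]⟩

end restart

section numbers

variable {Γ Λ : Type} [Inhabited Γ] [Fintype Γ] [DecidableEq Γ]
  (μ : Λ → Γ → Λ × TM0.Stmt Γ)

theorem bas_two : 2 ≤ bas Γ := by
  have : 0 < Fintype.card Γ := Fintype.card_pos
  unfold bas
  omega

/-- the rules of a total machine -/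
noncomputable def trules : Rules Λ (Λ × (Bool → Fin (bas Γ))) where
  src i := i.1
  tgt i := (μ i.1 (del (i.2 true))).1
  m _ := fun _ => (bas Γ : ℤ)
  r i := fun j => ((i.2 j : ℕ) : ℤ)
  a i := fun j => (fa (μ i.1 (del (i.2 true))).2 j : ℤ)
  b i := fun j => (fb (μ i.1 (del (i.2 true))).2 i.2 j : ℤ)
  hm _ _ := by
    have := bas_two (Γ := Γ)
    simp only [ne_eq, Nat.cast_eq_zero]
    omega
  ha i j := by
    have := fa_pos (μ i.1 (del (i.2 true))).2 j
    simp only [ne_eq, Nat.cast_eq_zero]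
    omega

/-- the residues of integers -/
noncomputable def rs (v : V) : Bool → Fin (bas Γ) := fun j => ⟨(v j % (bas Γ : ℤ)).toNat, by
  have := bas_two (Γ := Γ)
  have h1 := Int.emod_lt_of_pos (v j) (show (0 : ℤ) < bas Γ by omega)
  have h2 := Int.emod_nonneg (v j) (show (bas Γ : ℤ) ≠ 0 by omega)
  omega⟩

/-- the step on the integer configurations -/
noncomputable def GG (c : Λ × V) : Λ × V :=
  ((trules μ).tgt (c.1, rs c.2), (trules μ).a (c.1, rs c.2) * (fun j => c.2 j / (bas Γ : ℤ)) +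
    (trules μ).b (c.1, rs c.2))

theorem Step_iff (c c' : Λ × V) : Step (trules μ) c c' ↔ c' = GG μ c := by
  have hb := bas_two (Γ := Γ)
  constructor
  · rintro ⟨i, u, rfl, rfl⟩
    have h1 : ∀ j, ((trules μ).m i * u + (trules μ).r i) j = (bas Γ : ℤ) * u j + (i.2 j : ℕ) :=
      fun j => rfl
    have h2 : rs (Γ := Γ) ((trules μ).m i * u + (trules μ).r i) = i.2 := by
      funext j
      apply Fin.ext
      unfold rs
      simp only [h1]
      have := (i.2 j).2
      rw [Int.mul_add_emod_self_left, Int.emod_eq_of_lt (by omega) (by exact_mod_cast this)]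
      simp
    have h3 : (fun j => ((trules μ).m i * u + (trules μ).r i) j / (bas Γ : ℤ)) = u := by
      funext j
      rw [h1]
      have := (i.2 j).2
      rw [add_comm, Int.add_mul_ediv_left _ _ (by omega), Int.ediv_eq_zero_of_lt (by omega)
        (by exact_mod_cast this), zero_add]
    unfold GG
    simp only
    rw [h2, h3]
    rfl
  · rintro rfl
    refine ⟨(c.1, rs c.2), fun j => c.2 j / (bas Γ : ℤ), ?_, rfl⟩
    refine Prod.ext rfl ?_
    funext j
    change c.2 j = (bas Γ : ℤ) * (c.2 j / (bas Γ : ℤ)) + ((c.2 j % (bas Γ : ℤ)).toNat : ℤ)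
    have h2 := Int.emod_nonneg (c.2 j) (show (bas Γ : ℤ) ≠ 0 by omega)
    rw [Int.toNat_of_nonneg h2, Int.mul_ediv_add_emod]

/-- the configurations of numbers and tapes correspond -/
def Rel (c : Λ × V) (z : Λ × Tape Γ) : Prop :=
  c.1 = z.1 ∧ ∃ n : Bool → ℕ, c.2 = toV n ∧ RepT n z.2

theorem Rel.step {c : Λ × V} {z : Λ × Tape Γ} (h : Rel c z) : Rel (GG μ c) (stepF μ z) := by
  obtain ⟨q, T⟩ := z
  obtain ⟨q', v⟩ := c
  obtain ⟨rfl, n, rfl, hn⟩ := h
  have hb := bas_two (Γ := Γ)
  have hres : ∀ j, ((rs (Γ := Γ) (toV n) j : Fin (bas Γ)) : ℕ) = n j % bas Γ := by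
    intro j
    change ((n j : ℤ) % (bas Γ : ℤ)).toNat = n j % bas Γ
    omega
  have hdel : del (Γ := Γ) (rs (Γ := Γ) (toV n) true) = T.1 := by
    have h1 := hn.1.head
    rw [head_right₀] at h1
    rw [hres true, h1, del_kap]
  have h3 := rep_act (μ q' T.1).2 T n hn (rs (Γ := Γ) (toV n)) hres
  refine ⟨?_, _, ?_, h3⟩
  · change (μ q' (del (rs (Γ := Γ) (toV n) true))).1 = (μ q' T.1).1
    rw [hdel]
  · funext j
    change (fa (μ q' (del (rs (Γ := Γ) (toV n) true))).2 j : ℤ) * ((n j : ℤ) / (bas Γ : ℤ)) +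
      (fb (μ q' (del (rs (Γ := Γ) (toV n) true))).2 (rs (Γ := Γ) (toV n)) j : ℤ) =
      ((fa (μ q' T.1).2 j * (n j / bas Γ) + fb (μ q' T.1).2 (rs (Γ := Γ) (toV n)) j : ℕ) : ℤ)
    rw [hdel]
    push_cast
    rfl

theorem Rel.iter {c : Λ × V} {z : Λ × Tape Γ} (h : Rel c z) (k : ℕ) :
    Rel ((GG μ)^[k] c) ((stepF μ)^[k] z) := by
  induction k with
  | zero => exact h
  | succ k ih => rw [Function.iterate_succ_apply', Function.iterate_succ_apply']; exact ih.step μ

theorem digits_eq {B : ℕ} (hB : 2 ≤ B) : ∀ (s x y : ℕ), x + y ≤ s →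
    (∀ i, x / B ^ i % B = y / B ^ i % B) → x = y := by
  intro s
  induction s with
  | zero => intro x y h _; omega
  | succ s ih =>
    intro x y h hd
    by_cases h0 : x + y = 0
    · omega
    · have h1 : x / B + y / B ≤ s := by
        have key : ∀ k : ℕ, k / B ≤ k ∧ (k ≠ 0 → k / B < k) := fun k =>
          ⟨Nat.div_le_self _ _, fun hk => Nat.div_lt_self (by omega) hB⟩
        have k1 := key x
        have k2 := key y
        by_cases hf : x = 0
        · have := k2.2 (by omega)
          omega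
        · have := k1.2 hf
          omega
      have h2 := ih (x / B) (y / B) h1 (fun i => by
        have := hd (i + 1)
        rwa [pow_succ', ← Nat.div_div_eq_div_mul, ← Nat.div_div_eq_div_mul] at this)
      have h3 := hd 0
      rw [pow_zero, Nat.div_one, Nat.div_one] at h3
      rw [← Nat.div_add_mod x B, ← Nat.div_add_mod y B, h2, h3]

theorem Rep.unique {x y : ℕ} {l : ListBlank Γ} (h : Rep x l) (h' : Rep y l) : x = y :=
  digits_eq (bas_two (Γ := Γ)) _ x y le_rfl (fun i => by rw [h i, h' i])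

theorem Rep.unique' {x : ℕ} {l l' : ListBlank Γ} (h : Rep x l) (h' : Rep x l') : l = l' :=
  ListBlank.ext fun i => kap_inj (by rw [← h i, ← h' i])

theorem Rel_iff {c c' : Λ × V} {z z' : Λ × Tape Γ} (h : Rel c z) (h' : Rel c' z') :
    c = c' ↔ z = z' := by
  obtain ⟨q, v⟩ := c
  obtain ⟨q', v'⟩ := c'
  obtain ⟨p, T⟩ := z
  obtain ⟨p', T'⟩ := z'
  obtain ⟨h1, n, h2, h3⟩ := h
  obtain ⟨h1', n', h2', h3'⟩ := h'
  simp only at h1 h2 h3 h1' h2' h3'
  subst h1 h2 h1' h2'
  have hV : ∀ n n' : Bool → ℕ, toV n = toV n' → n = n' := by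
    intro n n' h
    funext j
    have h2 : (n j : ℤ) = (n' j : ℤ) := congrFun h j
    exact_mod_cast h2
  constructor
  · intro h
    obtain ⟨e1, e2⟩ := Prod.mk.inj h
    obtain rfl := hV _ _ e2
    refine Prod.ext e1 ?_
    have h4 := Rep.unique' h3.1 h3'.1
    have h5 := Rep.unique' h3.2 h3'.2
    have h6 : T.head = T'.head := by
      rw [← head_right₀, ← head_right₀, h4]
    have h7 : T.right = T'.right := by
      have e : ∀ T : Tape Γ, T.right₀.tail = T.right := fun T => by
        simp [Tape.right₀]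
      rw [← e, ← e, h4]
    obtain ⟨a, L, R⟩ := T
    obtain ⟨a', L', R'⟩ := T'
    simp only at h5 h6 h7
    subst h5 h6 h7
    rfl
  · intro h
    obtain ⟨e1, e2⟩ := Prod.mk.inj h
    subst e2
    refine Prod.ext e1 ?_
    have h4 := Rep.unique h3.1 h3'.1
    have h5 := Rep.unique h3.2 h3'.2
    have : n = n' := by
      funext j
      cases j
      · exact h5
      · exact h4
    subst this
    rfl

end numbers

theorem inp_computable [Fintype Gm] [DecidableEq Gm] :
    Computable (fun n : ℕ => enc (inp n)) := by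
  have h1 := digits_computable (fun a => kap (sym false a))
  have h2 : Computable (fun n : ℕ => ((PartrecToTM2.trNat n).map
      (fun a => kap (sym false a))).reverse) :=
    Primrec.list_reverse.to_comp.comp h1
  have h3 := (foldr_computable (bas Gm)).comp h2
  have h4 : Computable (fun x : ℕ => kap (sym true .cons) + (bas Gm) * x) :=
    (Primrec.nat_add.comp (Primrec.const _)
      (Primrec.nat_mul.comp (Primrec.const _) Primrec.id)).to_comp
  refine (h4.comp h3).of_eq ?_
  intro n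
  have e : ∀ l : List PartrecToTM2.Γ', enc (l.map (sym false)) =
      (l.map (fun a => kap (sym false a))).foldr (fun d acc => d + (bas Gm) * acc) 0 := by
    intro l
    induction l with
    | nil => rfl
    | cons a l ih =>
      simp only [List.map_cons, enc, List.foldr_cons, ih]
  simp only [inp, enc]
  rw [e, List.map_reverse]

theorem repT_inp [Fintype Gm] [DecidableEq Gm] (n : ℕ) :
    RepT (ini (enc (inp n))) (Tape.mk₁ (inp n) : Tape Gm) := by
  constructor
  · rw [mk1_right]
    exact rep_enc (inp n)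
  · exact rep_zero

end Pool.Agent.R662.CE

namespace Pool.Agent.R554.CE

open Turing Relation StateTransition Pool.Agent.R662.CE
open Pool.Agent.Helper270.WPSource Pool.Agent.Helper270.WP

/-- Every recursively enumerable equivalence relation is the connectedness relation of a modular
machine. -/
theorem exists_rules (R : ℕ → ℕ → Prop) (hR : Equivalence R)
    (hre : REPred (fun p : ℕ × ℕ => R p.1 p.2)) :
    ∃ (P ι : Type) (_ : Finite P) (_ : Finite ι) (D : Rules P ι) (p0 : P) (N : ℕ → ℕ),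
      Computable N ∧ ∀ x y, R x y ↔ Conn D (cfg p0 (N x)) (cfg p0 (N y)) := by
  classical
  obtain ⟨g, hg, hgR⟩ := exists_g R hR hre
  obtain ⟨Λ, iΛ, M, S, hfin, hS, hM⟩ := exists_tm0 g hg
  have fK : Finite PartrecToTM2.K' := by
    refine Finite.of_injective (fun k : PartrecToTM2.K' => match k with
      | .main => (0 : Fin 4) | .rev => 1 | .aux => 2 | .stack => 3) ?_
    intro a b h
    cases a <;> cases b <;> simp_all
  have fG : Finite Gm :=
    inferInstanceAs (Finite (Bool × (PartrecToTM2.K' → Option PartrecToTM2.Γ')))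
  let _ : Fintype Gm := Fintype.ofFinite _
  have : Finite S := hfin
  let μ : S → Gm → S × TM0.Stmt Gm := tot M hS
  let N : ℕ → ℕ := fun x => enc (inp (Nat.pair x 0))
  have hN : Computable N := by
    have h1 : Computable (fun x : ℕ => Nat.pair x 0) :=
      (Primrec₂.natPair.comp Primrec.id (Primrec.const 0)).to_comp
    exact inp_computable.comp h1
  refine ⟨S, S × (Bool → Fin (bas Gm)), inferInstance, inferInstance, trules μ, ⟨default, hS.1⟩,
    N, hN, fun x y => ?_⟩
  have hrel : ∀ x, Rel (Γ := Gm) (cfg (⟨default, hS.1⟩ : S) (N x))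
      (c0 M hS (fun n => Tape.mk₁ (inp n)) (Nat.pair x 0)) := by
    intro x
    refine ⟨rfl, ini (N x), ?_, repT_inp _⟩
    funext j
    cases j <;> rfl
  unfold Conn
  rw [hgR, ← restart_iff M hS (fun n => Tape.mk₁ (inp n)) tape_injective g hM,
    eqvGen_iff (Step (trules μ)) (GG μ) (Step_iff μ)]
  have key : ∀ k l : ℕ, (GG μ)^[k] (cfg (⟨default, hS.1⟩ : S) (N x)) =
      (GG μ)^[l] (cfg (⟨default, hS.1⟩ : S) (N y)) ↔
      (stepF (tot M hS))^[k] (c0 M hS (fun n => Tape.mk₁ (inp n)) (Nat.pair x 0)) =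
      (stepF (tot M hS))^[l] (c0 M hS (fun n => Tape.mk₁ (inp n)) (Nat.pair y 0)) :=
    fun k l => Rel_iff ((hrel x).iter μ k) ((hrel y).iter μ l)
  constructor
  · rintro ⟨k, l, h⟩
    exact ⟨k, l, (key k l).2 h⟩
  · rintro ⟨k, l, h⟩
    exact ⟨k, l, (key k l).1 h⟩

end Pool.Agent.R554.CE
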